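import Pool.Agent.MPdc7581.Uniq

/-!
# The Milnor fiber of the braid arrangement `A_3` is formal

The variety `F(A_3)` is the affine hypersurface `∏_{i < j} (z_i - z_j) = 1` in `ℂ^4`.  We show that
its algebraic de Rham algebra (the algebra of Kähler differential forms over `ℂ` of its coordinate
ring, given here by its universal property) is formal, in particular `1`-formal.
-/

namespace Pool.Agent.Results.MP_dc7581_gt.MilnorFiberA3Formal

open Pool.Agent.MPdc7581

theorem result :
    (∃ (Ω : CDGA) (ι : MilnorRing 3 →ₐ[ℂ] Ω.A), CDGA.IsDeRham Ω ι) ∧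
    ∀ (Ω : CDGA) (ι : MilnorRing 3 →ₐ[ℂ] Ω.A), CDGA.IsDeRham Ω ι → Ω.Formal ∧ Ω.OneFormal :=
  milnor_A3_all

end Pool.Agent.Results.MP_dc7581_gt.MilnorFiberA3Formal
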